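import Mathlib
import Pool.Agent.Lib.MP_570bef_ntS.FiS
import Pool.Agent.Lib.MP_570bef_ntSH.Sms

/-!
# Waring's problem with almost every shift
-/

set_option autoImplicit false

namespace Pool.Agent.Results.MP_570bef_nt.AlmostEveryShift

/-- Every sufficiently large natural number is a sum of `s` integers `⌊x ^ k⌋` with real numbers
`x ≥ 0` congruent to `β` modulo one. For `β = 0` this is `G(k) ≤ s`. -/
def ShiftedPowersSuffice (k : ℕ) (β : ℝ) (s : ℕ) : Prop :=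
  ∃ N₀ : ℕ, ∀ N : ℕ, N₀ ≤ N → ∃ z : Fin s → ℤ, (∀ i, 0 ≤ (z i : ℝ) + β) ∧
    N = ∑ i, ⌊((z i : ℝ) + β) ^ k⌋₊

/-- The number of terms, at most `3.01 k + 8`. -/
noncomputable def terms (k : ℕ) : ℕ :=
  2 * ⌊(k : ℝ) * Real.log 3⌋₊ + 2 * ⌊(k : ℝ) * Real.log (3 / 2)⌋₊ + 8

/-- For every `k ≥ 2` the set of exceptional shifts has dimension less than one; almost every
shift is not exceptional for any `k`. -/
theorem result :
    (∀ k : ℕ, 2 ≤ k → dimH {β : ℝ | ¬ ShiftedPowersSuffice k β (terms k)} < 1) ∧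
    ∀ᵐ β : ℝ, ∀ k : ℕ, 2 ≤ k → ShiftedPowersSuffice k β (terms k) :=
  ⟨Pool.Agent.Lib.MP_570bef_ntS.all_dim Pool.Agent.Lib.MP_570bef_ntSH.sms,
    Pool.Agent.Lib.MP_570bef_ntS.all_ae Pool.Agent.Lib.MP_570bef_ntSH.sms⟩

end Pool.Agent.Results.MP_570bef_nt.AlmostEveryShift
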