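import Pool.Agent.Lib.MP_570bef_ntF.J2

/-!
# The sharp `2k`-th moment of `k`-th powers over `K[t]`
-/

set_option autoImplicit false

namespace Pool.Agent.Results.MP_570bef_nt.HypothesisK

open Polynomial

/-- For every `k ≥ 2` there is `C` such that for every finite field `K` of characteristic greater than `k`
and every `n` the equation `x_1^k + ... + x_k^k = y_1^k + ... + y_k^k` has at most
`C^(n+1) |K|^(k n + k^2 + k)` solutions in polynomials of degree at most `n`. -/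
theorem result : ∀ k : ℕ, 2 ≤ k → ∃ C : ℕ, ∀ (K : Type) [Field K] [Fintype K],
    k < ringChar K → ∀ n : ℕ,
      {z : (Fin k → K[X]) × (Fin k → K[X]) |
        (∀ i, (z.1 i).natDegree ≤ n ∧ (z.2 i).natDegree ≤ n) ∧
          ∑ i, z.1 i ^ k = ∑ i, z.2 i ^ k}.Finite ∧
      {z : (Fin k → K[X]) × (Fin k → K[X]) |
        (∀ i, (z.1 i).natDegree ≤ n ∧ (z.2 i).natDegree ≤ n) ∧
          ∑ i, z.1 i ^ k = ∑ i, z.2 i ^ k}.ncard ≤ C ^ (n + 1) * Fintype.card K ^ (k * n + k ^ 2 + k) := by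
  classical
  intro k hk
  refine ⟨MP_570bef_ntF.C2 k, ?_⟩
  intro K _ _ hchar n
  have hc : ∀ j : ℕ, 1 ≤ j → j ≤ k → (j : K) ≠ 0 := by
    intro j hj1 hjk h0
    have hdvd : ringChar K ∣ j := (ringChar.spec K j).mp h0
    have := Nat.le_of_dvd (by omega) hdvd
    omega
  have hset : {z : (Fin k → K[X]) × (Fin k → K[X]) |
        (∀ i, (z.1 i).natDegree ≤ n ∧ (z.2 i).natDegree ≤ n) ∧
          ∑ i, z.1 i ^ k = ∑ i, z.2 i ^ k} =
      (((Fintype.piFinset (fun _ : Fin k => MP_570bef_ntF.SS K n) ×ˢ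
        Fintype.piFinset (fun _ : Fin k => MP_570bef_ntF.SS K n)).filter
        (fun z => ∑ i, z.1 i ^ k = ∑ i, z.2 i ^ k) : Finset ((Fin k → K[X]) × (Fin k → K[X]))) :
        Set ((Fin k → K[X]) × (Fin k → K[X]))) := by
    ext z
    simp only [Finset.coe_filter, Finset.mem_product, Fintype.mem_piFinset, MP_570bef_ntF.mem_SS]
    constructor
    · rintro ⟨h1, h2⟩
      exact ⟨⟨fun i => (h1 i).1, fun i => (h1 i).2⟩, h2⟩
    · rintro ⟨⟨h1, h2⟩, h3⟩
      exact ⟨fun i => ⟨h1 i, h2 i⟩, h3⟩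
  rw [hset]
  refine ⟨Finset.finite_toSet _, ?_⟩
  rw [Set.ncard_coe_finset]
  have h := MP_570bef_ntF.En_SS_le (K := K) k n hk hc
  unfold MP_570bef_ntF.En at h
  convert h

end Pool.Agent.Results.MP_570bef_nt.HypothesisK
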